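import Mathlib

set_option autoImplicit false

open Finset

namespace Pool.Agent.Results.MP_0c0609_co.FiniteIffAtMostFour

/-! ### Contributions of one star -/

/-- `1` if the leaf with the list `e` is forced to the colour `x` when the centre has colour `o`. -/
def t {C : Type} [DecidableEq C] (e : Sym2 C) (o x : C) : ℕ := if e = s(o, x) ∧ o ≠ x then 1 else 0

lemma t_le {C : Type} [DecidableEq C] (e : Sym2 C) (o x : C) : t e o x ≤ 1 := by
  unfold t; split_ifs <;> omega

lemma t_eq_one {C : Type} [DecidableEq C] {e : Sym2 C} {o x : C} (h : t e o x ≠ 0) :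
    e = s(o, x) ∧ o ≠ x := by
  by_contra hc
  exact h (if_neg hc)

lemma t_self {C : Type} [DecidableEq C] (e : Sym2 C) (o : C) : t e o o = 0 := by
  unfold t; rw [if_neg]; exact fun h => h.2 rfl

/-- Two different forcings of the same leaf. -/
lemma t_excl {C : Type} [DecidableEq C] {e : Sym2 C} {o x o' x' : C} (h : t e o x ≠ 0)
    (h' : t e o' x' ≠ 0) : (o = o' ∧ x = x') ∨ (o = x' ∧ x = o') := by
  have h1 := (t_eq_one h).1.symm.trans (t_eq_one h').1
  exact Sym2.eq_iff.mp h1

/-- Same centre colour, four different colours. -/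
lemma t_four {C : Type} [DecidableEq C] (e : Sym2 C) (o : C) {x y z w : C} (hxy : x ≠ y)
    (hxz : x ≠ z) (hxw : x ≠ w) (hyz : y ≠ z) (hyw : y ≠ w) (hzw : z ≠ w) :
    t e o x + t e o y + t e o z + t e o w ≤ 1 := by
  have key : ∀ x y : C, x ≠ y → t e o x = 0 ∨ t e o y = 0 := by
    intro x y hxy
    by_contra hc
    push Not at hc
    have h1 := (t_eq_one hc.1).2
    rcases t_excl hc.1 hc.2 with h2 | h2
    · exact hxy h2.2
    · exact h1 h2.2.symm
  have h1 := t_le e o x
  have h2 := t_le e o y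
  have h3 := t_le e o z
  have h4 := t_le e o w
  have k1 := key x y hxy
  have k2 := key x z hxz
  have k3 := key x w hxw
  have k4 := key y z hyz
  have k5 := key y w hyw
  have k6 := key z w hzw
  omega

/-- Same centre colour, two different colours. -/
lemma t_two {C : Type} [DecidableEq C] (e : Sym2 C) (o : C) {x y : C} (hxy : x ≠ y) :
    t e o x + t e o y ≤ 1 := by
  have h1 := t_le e o x
  have h2 := t_le e o y
  have key : t e o x = 0 ∨ t e o y = 0 := by
    by_contra hc
    push Not at hc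
    have h1 := (t_eq_one hc.1).2
    rcases t_excl hc.1 hc.2 with h2 | h2
    · exact hxy h2.2
    · exact h1 h2.2.symm
  omega

/-- Different centre colours, the same colour. -/
lemma t_same {C : Type} [DecidableEq C] (e : Sym2 C) {o o' : C} (x : C) (ho : o ≠ o') :
    t e o x + t e o' x ≤ 1 := by
  have h1 := t_le e o x
  have h2 := t_le e o' x
  have key : t e o x = 0 ∨ t e o' x = 0 := by
    by_contra hc
    push Not at hc
    have h1 := (t_eq_one hc.2).2
    rcases t_excl hc.1 hc.2 with h2 | h2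
    · exact ho h2.1
    · exact h1 h2.2.symm
  omega

/-- Different centre colours `o`, `o'` and different colours `c`, `d` with `{o, o'} ≠ {c, d}`. -/
lemma t_mix {C : Type} [DecidableEq C] (e : Sym2 C) {o o' c d : C} (ho : o ≠ o') (hc : c ≠ d)
    (hne : ¬ ((o = c ∧ o' = d) ∨ (o = d ∧ o' = c))) :
    t e o c + t e o' d + t e o d + t e o' c ≤ 1 := by
  have h1 := t_le e o c
  have h2 := t_le e o' d
  have h3 := t_le e o d
  have h4 := t_le e o' c
  have k1 : t e o c = 0 ∨ t e o' d = 0 := by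
    by_contra hk
    push Not at hk
    rcases t_excl hk.1 hk.2 with h2 | h2
    · exact ho h2.1
    · exact hne (Or.inr ⟨h2.1, h2.2.symm⟩)
  have k2 := t_two e o hc
  have k3 := t_same e c ho
  have k4 := t_same e d ho
  have k5 := t_two e o' hc
  have k6 : t e o d = 0 ∨ t e o' c = 0 := by
    by_contra hk
    push Not at hk
    rcases t_excl hk.1 hk.2 with h2 | h2
    · exact ho h2.1
    · exact hne (Or.inl ⟨h2.1, h2.2.symm⟩)
  omega

/-- The number of vertices of a star which get the colour `x` by force if its centre has the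
colour `o`; the lists of the leaves are `e`. -/
def load {C : Type} [DecidableEq C] {m : ℕ} (e : Fin m → Sym2 C) (o x : C) : ℕ :=
  (if x = o then 1 else 0) + ∑ j, t (e j) o x

section star

variable {C : Type} [DecidableEq C] {m : ℕ} (e : Fin m → Sym2 C)

lemma load_four (o : C) {x y z w : C} (hxy : x ≠ y)
    (hxz : x ≠ z) (hxw : x ≠ w) (hyz : y ≠ z) (hyw : y ≠ w) (hzw : z ≠ w) :
    load e o x + load e o y + load e o z + load e o w ≤ m + 1 := by
  have h1 : ∑ j, (t (e j) o x + t (e j) o y + t (e j) o z + t (e j) o w) ≤ ∑ _j : Fin m, 1 :=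
    Finset.sum_le_sum fun j _ => t_four (e j) o hxy hxz hxw hyz hyw hzw
  rw [Finset.sum_add_distrib, Finset.sum_add_distrib, Finset.sum_add_distrib] at h1
  simp only [sum_const, card_univ, Fintype.card_fin, smul_eq_mul, mul_one] at h1
  unfold load
  split_ifs with a1 a2 a3 a4 <;> first | omega | (exfalso; simp_all)

lemma load_two (o : C) {x y : C} (hxy : x ≠ y) : load e o x + load e o y ≤ m + 1 := by
  have h1 : ∑ j, (t (e j) o x + t (e j) o y) ≤ ∑ _j : Fin m, 1 :=
    Finset.sum_le_sum fun j _ => t_two (e j) o hxy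
  rw [Finset.sum_add_distrib] at h1
  simp only [sum_const, card_univ, Fintype.card_fin, smul_eq_mul, mul_one] at h1
  unfold load
  split_ifs with a1 a2 <;> first | omega | (exfalso; simp_all)

lemma load_same {o o' : C} (x : C) (ho : o ≠ o') : load e o x + load e o' x ≤ m + 1 := by
  have h1 : ∑ j, (t (e j) o x + t (e j) o' x) ≤ ∑ _j : Fin m, 1 :=
    Finset.sum_le_sum fun j _ => t_same (e j) x ho
  rw [Finset.sum_add_distrib] at h1
  simp only [sum_const, card_univ, Fintype.card_fin, smul_eq_mul, mul_one] at h1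
  unfold load
  split_ifs with a1 a2 <;> first | omega | (exfalso; simp_all)

lemma load_mix {o o' c d : C} (ho : o ≠ o') (hc : c ≠ d)
    (hne : ¬ ((o = c ∧ o' = d) ∨ (o = d ∧ o' = c))) :
    load e o c + load e o' d + (load e o d + load e o' c) ≤ m + 1 := by
  have h1 : ∑ j, (t (e j) o c + t (e j) o' d + t (e j) o d + t (e j) o' c) ≤ ∑ _j : Fin m, 1 :=
    Finset.sum_le_sum fun j _ => t_mix (e j) ho hc hne
  rw [Finset.sum_add_distrib, Finset.sum_add_distrib, Finset.sum_add_distrib] at h1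
  simp only [sum_const, card_univ, Fintype.card_fin, smul_eq_mul, mul_one] at h1
  unfold load
  have h2 : (if c = o then 1 else 0) + (if d = o' then 1 else 0) + (if d = o then 1 else 0)
      + (if c = o' then 1 else 0) ≤ 1 := by
    have k1 : c = o → d = o' → False := fun h h' => hne (Or.inl ⟨h.symm, h'.symm⟩)
    have k2 : c = o → d = o → False := fun h h' => hc (h.trans h'.symm)
    have k3 : c = o → c = o' → False := fun h h' => ho (h.symm.trans h')
    have k4 : d = o' → d = o → False := fun h h' => ho (h'.symm.trans h)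
    have k5 : d = o' → c = o' → False := fun h h' => hc (h'.trans h.symm)
    have k6 : d = o → c = o' → False := fun h h' => hne (Or.inr ⟨h.symm, h'.symm⟩)
    split_ifs with a1 a2 a3 a4 <;> first | omega | (exfalso; tauto)
  omega

lemma load_le_of_ne {o x : C} (h : x ≠ o) : load e o x ≤ m := by
  have h1 : ∑ j, t (e j) o x ≤ ∑ _j : Fin m, 1 := Finset.sum_le_sum fun j _ => t_le _ _ _
  simp only [sum_const, card_univ, Fintype.card_fin, smul_eq_mul, mul_one] at h1
  unfold load
  rw [if_neg h]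
  omega

lemma load_self (o : C) : load e o o = 1 := by
  unfold load
  rw [if_pos rfl]
  have : ∑ j, t (e j) o o = 0 := Finset.sum_eq_zero fun j _ => t_self _ _
  omega

end star

/-! ### All stars -/

section main

variable {C : Type} [DecidableEq C] {n : ℕ} {m : Fin n → ℕ}
  (a b : Fin n → C) (e : (i : Fin n) → Fin (m i) → Sym2 C)

/-- The colour of the centre of the star `i`. -/
def ch (ε : Fin n → Bool) (i : Fin n) : C := if ε i = true then a i else b i

/-- The number of vertices which get the colour `x` by force. -/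
def total (ε : Fin n → Bool) (x : C) : ℕ := ∑ i, load (e i) (ch a b ε i) x

/-- The opposite choice. -/
def co (ε : Fin n → Bool) : Fin n → Bool := fun i => !ε i

/-- The stars whose centres have the list `{c, d}`. -/
def cls (c d : C) : Finset (Fin n) :=
  univ.filter fun i => (a i = c ∧ b i = d) ∨ (a i = d ∧ b i = c)

/-- The choice is changed for the stars whose centres have the list `{c, d}`. -/
def fl (c d : C) (ε : Fin n → Bool) : Fin n → Bool :=
  fun i => if i ∈ cls a b c d then !ε i else ε i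

variable (m) in
/-- The signed imbalance between the colours `c` and `d`. -/
def imb (c d : C) (ε : Fin n → Bool) : ℤ :=
  ∑ i ∈ cls a b c d, if ch a b ε i = d then (m i : ℤ) - 1 else -((m i : ℤ) - 1)

/-- The forced vertices of the other stars. -/
def rest (c d : C) (ε : Fin n → Bool) : ℤ :=
  ∑ i ∈ (cls a b c d)ᶜ, ((load (e i) (ch a b ε i) c : ℤ) + load (e i) (ch a b (co ε) i) d)

variable (m) in
/-- The number of vertices of the stars in `S`. -/
def vs (S : Finset (Fin n)) : ℤ := ∑ i ∈ S, ((m i : ℤ) + 1)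

omit [DecidableEq C] in
lemma co_co (ε : Fin n → Bool) : co (co ε) = ε := by
  funext i; simp [co]

lemma co_fl (c d : C) (ε : Fin n → Bool) : co (fl a b c d ε) = fl a b c d (co ε) := by
  funext i
  simp only [co, fl]
  split_ifs <;> rfl

lemma cls_comm (c d : C) : cls a b c d = cls a b d c := by
  ext i
  simp only [cls, mem_filter, mem_univ, true_and]
  tauto

lemma mem_cls {c d : C} {i : Fin n} :
    i ∈ cls a b c d ↔ (a i = c ∧ b i = d) ∨ (a i = d ∧ b i = c) := by
  simp only [cls, mem_filter, mem_univ, true_and]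

omit [DecidableEq C] in
lemma ch_cases (ε : Fin n → Bool) (i : Fin n) :
    (ch a b ε i = a i ∧ ch a b (co ε) i = b i) ∨ (ch a b ε i = b i ∧ ch a b (co ε) i = a i) := by
  unfold ch co
  cases ε i <;> simp

lemma ch_cls {c d : C} {i : Fin n} (h : i ∈ cls a b c d) (ε : Fin n → Bool) :
    (ch a b ε i = c ∧ ch a b (co ε) i = d) ∨ (ch a b ε i = d ∧ ch a b (co ε) i = c) := by
  rw [mem_cls] at h
  rcases ch_cases a b ε i with h1 | h1 <;> rcases h with h2 | h2 <;> simp [h1, h2]

lemma ch_not_cls {c d : C} {i : Fin n} (h : i ∉ cls a b c d) (ε : Fin n → Bool) :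
    ¬ ((ch a b ε i = c ∧ ch a b (co ε) i = d) ∨ (ch a b ε i = d ∧ ch a b (co ε) i = c)) := by
  rw [mem_cls] at h
  rcases ch_cases a b ε i with h1 | h1
  · rw [h1.1, h1.2]; exact h
  · rw [h1.1, h1.2]; tauto

lemma ch_fl_mem {c d : C} {i : Fin n} (h : i ∈ cls a b c d) (ε : Fin n → Bool) :
    ch a b (fl a b c d ε) i = ch a b (co ε) i := by
  have h1 : fl a b c d ε i = co ε i := by unfold fl co; rw [if_pos h]
  unfold ch
  rw [h1]

lemma ch_fl_not_mem {c d : C} {i : Fin n} (h : i ∉ cls a b c d) (ε : Fin n → Bool) :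
    ch a b (fl a b c d ε) i = ch a b ε i := by
  simp only [ch, fl, if_neg h]

omit [DecidableEq C] in
lemma vs_univ (S : Finset (Fin n)) : vs m S + vs m Sᶜ = vs m univ := by
  unfold vs
  exact Finset.sum_add_sum_compl S _

variable {a b} (hab : ∀ i, a i ≠ b i)

omit [DecidableEq C] in
include hab in
lemma ch_ne (ε : Fin n → Bool) (i : Fin n) : ch a b ε i ≠ ch a b (co ε) i := by
  rcases ch_cases a b ε i with h | h
  · rw [h.1, h.2]; exact hab i
  · rw [h.1, h.2]; exact (hab i).symm

lemma total_split (c d x : C) (ε : Fin n → Bool) : (total a b e ε x : ℤ) =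
    ∑ i ∈ cls a b c d, (load (e i) (ch a b ε i) x : ℤ) +
      ∑ i ∈ (cls a b c d)ᶜ, (load (e i) (ch a b ε i) x : ℤ) := by
  rw [Finset.sum_add_sum_compl]
  unfold total
  push_cast
  rfl

include hab in
lemma rest_add {c d : C} (hcd : c ≠ d) (ε : Fin n → Bool) :
    rest a b e c d ε + rest a b e d c ε ≤ vs m (cls a b c d)ᶜ := by
  unfold rest vs
  rw [cls_comm a b d c, ← Finset.sum_add_distrib]
  refine Finset.sum_le_sum fun i hi => ?_
  have h1 := load_mix (e i) (ch_ne hab ε i) hcd (ch_not_cls a b (mem_compl.mp hi) ε)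
  omega

include hab in
lemma rest_le {c d : C} (hcd : c ≠ d) (ε : Fin n → Bool) :
    rest a b e c d ε ≤ vs m (cls a b c d)ᶜ := by
  have h1 := rest_add e hab hcd ε
  have h2 : 0 ≤ rest a b e d c ε := Finset.sum_nonneg fun i _ => by positivity
  omega

/-- (K1) -/
lemma total_add {c d : C} (hcd : c ≠ d) (ε : Fin n → Bool) :
    (total a b e ε c : ℤ) + total a b e (co ε) d ≤
      vs m (cls a b c d) + imb m a b c d ε + rest a b e c d ε := by
  rw [total_split e c d c, total_split e c d d]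
  unfold vs imb rest
  rw [Finset.sum_add_distrib (s := (cls a b c d)ᶜ), ← Finset.sum_add_distrib (s := cls a b c d)]
  have h : ∑ i ∈ cls a b c d, ((load (e i) (ch a b ε i) c : ℤ)) +
      ∑ i ∈ cls a b c d, ((load (e i) (ch a b (co ε) i) d : ℤ)) ≤
      ∑ i ∈ cls a b c d, (((m i : ℤ) + 1) +
        if ch a b ε i = d then (m i : ℤ) - 1 else -((m i : ℤ) - 1)) := by
    rw [← Finset.sum_add_distrib]
    refine Finset.sum_le_sum fun i hi => ?_
    rcases ch_cls a b hi ε with h1 | h1
    · rw [h1.1, h1.2, if_neg hcd, load_self, load_self]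
      omega
    · rw [h1.1, h1.2, if_pos rfl]
      have h2 := load_le_of_ne (e i) (o := d) (x := c) hcd
      have h3 := load_le_of_ne (e i) (o := c) (x := d) hcd.symm
      omega
  linarith

include hab in
/-- (K4) -/
lemma total_fl {c d : C} (hcd : c ≠ d) (ε : Fin n → Bool) :
    (total a b e (fl a b c d ε) c : ℤ) + total a b e (co ε) d ≤ vs m univ := by
  rw [total_split e c d c, total_split e c d d, ← vs_univ (cls a b c d)]
  unfold vs
  have h1 : ∑ i ∈ cls a b c d, ((load (e i) (ch a b (fl a b c d ε) i) c : ℤ)) +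
      ∑ i ∈ cls a b c d, ((load (e i) (ch a b (co ε) i) d : ℤ)) ≤
      ∑ i ∈ cls a b c d, ((m i : ℤ) + 1) := by
    rw [← Finset.sum_add_distrib]
    refine Finset.sum_le_sum fun i hi => ?_
    rw [ch_fl_mem a b hi]
    have := load_two (e i) (ch a b (co ε) i) hcd
    omega
  have h2 : ∑ i ∈ (cls a b c d)ᶜ, ((load (e i) (ch a b (fl a b c d ε) i) c : ℤ)) +
      ∑ i ∈ (cls a b c d)ᶜ, ((load (e i) (ch a b (co ε) i) d : ℤ)) ≤
      ∑ i ∈ (cls a b c d)ᶜ, ((m i : ℤ) + 1) := by
    rw [← Finset.sum_add_distrib]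
    refine Finset.sum_le_sum fun i hi => ?_
    rw [ch_fl_not_mem a b (mem_compl.mp hi)]
    have := load_mix (e i) (ch_ne hab ε i) hcd (ch_not_cls a b (mem_compl.mp hi) ε)
    omega
  linarith

include hab in
/-- (K5) -/
lemma total_fl' {c d : C} (hcd : c ≠ d) (ε : Fin n → Bool) :
    (total a b e ε c : ℤ) + total a b e (co (fl a b c d ε)) d ≤ vs m univ := by
  have h := total_fl e hab hcd.symm (co ε)
  rw [co_co] at h
  rw [co_fl]
  have h1 : fl a b d c (co ε) = fl a b c d (co ε) := by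
    unfold fl; rw [cls_comm]
  rw [h1] at h
  linarith

include hab in
/-- (K0) -/
lemma total_co (x : C) (ε : Fin n → Bool) :
    (total a b e ε x : ℤ) + total a b e (co ε) x ≤ vs m univ := by
  unfold total vs
  push_cast
  rw [← Finset.sum_add_distrib]
  refine Finset.sum_le_sum fun i _ => ?_
  have := load_same (e i) x (ch_ne hab ε i)
  omega

lemma imb_swap {c d : C} (hcd : c ≠ d) (ε : Fin n → Bool) :
    imb m a b d c ε = - imb m a b c d ε := by
  unfold imb
  rw [cls_comm a b d c, ← Finset.sum_neg_distrib]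
  refine Finset.sum_congr rfl fun i hi => ?_
  rcases ch_cls a b hi ε with h1 | h1
  · rw [h1.1, if_pos rfl, if_neg hcd]; ring
  · rw [h1.1, if_pos rfl, if_neg hcd.symm]

lemma imb_fl {c d : C} (hcd : c ≠ d) (ε : Fin n → Bool) :
    imb m a b c d (fl a b c d ε) = - imb m a b c d ε := by
  unfold imb
  rw [← Finset.sum_neg_distrib]
  refine Finset.sum_congr rfl fun i hi => ?_
  rw [ch_fl_mem a b hi]
  rcases ch_cls a b hi ε with h1 | h1
  · rw [h1.1, h1.2, if_pos rfl, if_neg hcd]; ring
  · rw [h1.1, h1.2, if_pos rfl, if_neg hcd]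

lemma imb_fl_other {c d g h : C} (hne : ¬ ((g = c ∧ h = d) ∨ (g = d ∧ h = c)))
    (ε : Fin n → Bool) : imb m a b g h (fl a b c d ε) = imb m a b g h ε := by
  unfold imb
  refine Finset.sum_congr rfl fun i hi => ?_
  rw [ch_fl_not_mem a b]
  intro hi'
  rw [mem_cls] at hi hi'
  apply hne
  rcases hi with ⟨h1, h2⟩ | ⟨h1, h2⟩ <;> rcases hi' with ⟨h3, h4⟩ | ⟨h3, h4⟩
  · exact Or.inl ⟨h1.symm.trans h3, h2.symm.trans h4⟩
  · exact Or.inr ⟨h1.symm.trans h3, h2.symm.trans h4⟩
  · exact Or.inr ⟨h2.symm.trans h4, h1.symm.trans h3⟩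
  · exact Or.inl ⟨h2.symm.trans h4, h1.symm.trans h3⟩

lemma rest_fl (c d : C) (ε : Fin n → Bool) :
    rest a b e c d (fl a b c d ε) = rest a b e c d ε := by
  unfold rest
  refine Finset.sum_congr rfl fun i hi => ?_
  rw [ch_fl_not_mem a b (mem_compl.mp hi), co_fl, ch_fl_not_mem a b (mem_compl.mp hi)]

lemma fl_comm (c d : C) (ε : Fin n → Bool) : fl a b c d ε = fl a b d c ε := by
  unfold fl; rw [cls_comm]

lemma imb_fl_abs (c d g h : C) (ε : Fin n → Bool) (hgh : g ≠ h) :
    |imb m a b g h (fl a b c d ε)| = |imb m a b g h ε| := by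
  by_cases h1 : (g = c ∧ h = d) ∨ (g = d ∧ h = c)
  · rcases h1 with ⟨rfl, rfl⟩ | ⟨rfl, rfl⟩
    · rw [imb_fl hgh, abs_neg]
    · rw [fl_comm, imb_fl hgh, abs_neg]
  · rw [imb_fl_other h1]

/-- (K6) -/
lemma total_four (ε₁ ε₂ ε₃ ε₄ : Fin n → Bool) {x y z w : C} (hxy : x ≠ y)
    (hxz : x ≠ z) (hxw : x ≠ w) (hyz : y ≠ z) (hyw : y ≠ w) (hzw : z ≠ w) :
    (total a b e ε₁ x : ℤ) + total a b e ε₂ y + total a b e ε₃ z + total a b e ε₄ w
      ≤ 2 * vs m univ := by
  unfold total vs
  push_cast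
  rw [← Finset.sum_add_distrib, ← Finset.sum_add_distrib, ← Finset.sum_add_distrib,
    Finset.mul_sum]
  refine Finset.sum_le_sum fun i _ => ?_
  have key : ∀ (ε : Fin n → Bool) (x : C), load (e i) (ch a b ε i) x ≤
      load (e i) (a i) x + load (e i) (b i) x := by
    intro ε x
    rcases ch_cases a b ε i with h | h
    · rw [h.1]; omega
    · rw [h.1]; omega
  have h1 := key ε₁ x
  have h2 := key ε₂ y
  have h3 := key ε₃ z
  have h4 := key ε₄ w
  have h5 := load_four (e i) (a i) hxy hxz hxw hyz hyw hzw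
  have h6 := load_four (e i) (b i) hxy hxz hxw hyz hyw hzw
  omega

/-- The witnesses of the failure of `ε` and of the opposite choice. -/
def Wit (B : ℕ) (ε : Fin n → Bool) (c d : C) : Prop :=
  B + 1 ≤ total a b e ε c ∧ B + 1 ≤ total a b e (co ε) d

include hab in
lemma wit_ne {B : ℕ} (hB : vs m univ ≤ 2 * B) {ε : Fin n → Bool} {c d : C}
    (h : Wit (a := a) (b := b) e B ε c d) : c ≠ d := by
  rintro rfl
  have h1 := total_co e hab c ε
  obtain ⟨h2, h3⟩ := h
  omega

include hab in
lemma wit_pos {B : ℕ} (hB : vs m univ ≤ 2 * B) {ε : Fin n → Bool} {c d : C}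
    (h : Wit (a := a) (b := b) e B ε c d) : 0 < imb m a b c d ε := by
  have hcd := wit_ne e hab hB h
  obtain ⟨h1, h2⟩ := h
  have h3 := total_add e (a := a) (b := b) hcd ε
  have h4 := rest_le e hab hcd ε
  have h5 := vs_univ (m := m) (cls a b c d)
  omega

/-- All classes are balanced. -/
def Bal (m : Fin n → ℕ) (a b : Fin n → C) (ε : Fin n → Bool) : Prop :=
  ∀ c d : C, c ≠ d → 2 * |imb m a b c d ε| ≤ 3 + vs m (cls a b c d)ᶜ

lemma Bal.fl {c d : C} {ε : Fin n → Bool} (h : Bal m a b ε) : Bal m a b (fl a b c d ε) := by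
  intro g h' hgh
  rw [imb_fl_abs c d g h' ε hgh]
  exact h g h' hgh

include hab in
lemma step {B : ℕ} (hB : vs m univ ≤ 2 * B) {ε : Fin n → Bool} (hbal : Bal m a b ε) {c d g h : C}
    (h1 : Wit (a := a) (b := b) e B ε c d) (h2 : Wit (a := a) (b := b) e B (fl a b c d ε) g h) :
    g ≠ c ∧ h ≠ d ∧ ¬ (g = d ∧ h = c) := by
  have hcd := wit_ne e hab hB h1
  refine ⟨?_, ?_, ?_⟩
  · rintro rfl
    have h3 := total_fl e hab hcd ε
    have h4 := h1.2
    have h5 := h2.1
    omega
  · rintro rfl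
    have h3 := total_fl' e hab hcd ε
    have h4 := h1.1
    have h5 := h2.2
    omega
  · rintro ⟨rfl, rfl⟩
    have h3 := total_add e (a := a) (b := b) hcd ε
    have h4 := total_add e (a := a) (b := b) hcd.symm (fl a b h g ε)
    rw [imb_swap hcd, imb_fl hcd, neg_neg] at h4
    have h5 : rest a b e g h (fl a b h g ε) = rest a b e g h ε := by
      rw [fl_comm, rest_fl]
    rw [h5, cls_comm a b g h] at h4
    have h6 := rest_add e hab hcd ε
    have h7 := vs_univ (m := m) (cls a b h g)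
    have h8 := hbal h g hcd
    have h9 := le_abs_self (imb m a b h g ε)
    obtain ⟨h10, h11⟩ := h1
    obtain ⟨h12, h13⟩ := h2
    omega

include hab in
/-- One of the choices is good. -/
theorem exists_good {B : ℕ} (hB : vs m univ ≤ 2 * B) (ε₀ : Fin n → Bool) (hbal : Bal m a b ε₀) :
    ∃ ε : Fin n → Bool, ∀ x, total a b e ε x ≤ B := by
  by_contra hcon
  push Not at hcon
  have hw : ∀ ε, ∃ c d, Wit (a := a) (b := b) e B ε c d := by
    intro ε
    obtain ⟨c, hc⟩ := hcon ε
    obtain ⟨d, hd⟩ := hcon (co ε)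
    exact ⟨c, d, hc, hd⟩
  -- at most three heavy colours
  have four : ∀ (ε₁ ε₂ ε₃ ε₄ : Fin n → Bool) (x y z w : C), B + 1 ≤ total a b e ε₁ x →
      B + 1 ≤ total a b e ε₂ y → B + 1 ≤ total a b e ε₃ z → B + 1 ≤ total a b e ε₄ w →
      x ≠ y → x ≠ z → y ≠ z → w = x ∨ w = y ∨ w = z := by
    intro ε₁ ε₂ ε₃ ε₄ x y z w h1 h2 h3 h4 hxy hxz hyz
    by_contra hne
    push Not at hne
    have := total_four e (a := a) (b := b) ε₁ ε₂ ε₃ ε₄ hxy hxz hne.1.symm hyz hne.2.1.symm
      hne.2.2.symm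
    omega
  obtain ⟨c, d, h0⟩ := hw ε₀
  have hcd := wit_ne e hab hB h0
  have p0 := wit_pos e hab hB h0
  have n1 : imb m a b c d (fl a b c d ε₀) < 0 := by rw [imb_fl hcd]; omega
  have bal1 : Bal m a b (fl a b c d ε₀) := hbal.fl
  set ε₁ := fl a b c d ε₀ with hε₁
  obtain ⟨x, y, h1⟩ := hw ε₁
  have hxy := wit_ne e hab hB h1
  obtain ⟨s1, s2, s3⟩ := step e hab hB hbal h0 h1
  have p1 := wit_pos e hab hB h1
  by_cases hxd : x = d
  · -- `x = d`, `y = g` is a third colour
    subst hxd
    have hyc : y ≠ c := fun h => s3 ⟨rfl, h⟩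
    have n2 : imb m a b x y (fl a b x y ε₁) < 0 := by rw [imb_fl hxy]; omega
    have n2' : imb m a b c x (fl a b x y ε₁) < 0 := by
      rw [imb_fl_other (by rintro (h | h) <;> [exact hcd h.1; exact hyc h.1.symm])]
      exact n1
    have bal2 : Bal m a b (fl a b x y ε₁) := bal1.fl
    set ε₂ := fl a b x y ε₁ with hε₂
    obtain ⟨u, v, h2⟩ := hw ε₂
    have huv := wit_ne e hab hB h2
    obtain ⟨t1, t2, t3⟩ := step e hab hB bal1 h1 h2
    have p2 := wit_pos e hab hB h2
    have hu := four _ _ _ _ c x y u h0.1 h0.2 h1.2 h2.1 hcd hyc.symm hxy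
    have hv := four _ _ _ _ c x y v h0.1 h0.2 h1.2 h2.2 hcd hyc.symm hxy
    have huy : u = y ∧ v = c := by
      rcases hu with rfl | rfl | rfl
      · rcases hv with rfl | rfl | rfl
        · exact absurd rfl huv
        · omega
        · exact absurd rfl t2
      · exact absurd rfl t1
      · rcases hv with rfl | rfl | rfl
        · exact ⟨rfl, rfl⟩
        · exact absurd ⟨rfl, rfl⟩ t3
        · exact absurd rfl t2
    obtain ⟨rfl, rfl⟩ := huy
    -- now `u` is the third colour, `v` the first one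
    have n3 : imb m a b v x (fl a b u v ε₂) < 0 := by
      rw [imb_fl_other (by rintro (h | h) <;> [exact huv h.1.symm; exact hxy h.2])]
      exact n2'
    have n3' : imb m a b x u (fl a b u v ε₂) < 0 := by
      rw [imb_fl_other (by rintro (h | h) <;> [exact hxy h.1; exact hcd h.1.symm])]
      exact n2
    set ε₃ := fl a b u v ε₂ with hε₃
    obtain ⟨p, q, h3⟩ := hw ε₃
    have hpq := wit_ne e hab hB h3
    obtain ⟨r1, r2, r3⟩ := step e hab hB bal2 h2 h3
    have p3 := wit_pos e hab hB h3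
    have hp := four _ _ _ _ v x u p h0.1 h0.2 h1.2 h3.1 hcd huv.symm hxy
    have hq := four _ _ _ _ v x u q h0.1 h0.2 h1.2 h3.2 hcd huv.symm hxy
    rcases hp with rfl | rfl | rfl
    · rcases hq with rfl | rfl | rfl
      · exact absurd rfl hpq
      · omega
      · exact absurd ⟨rfl, rfl⟩ r3
    · rcases hq with rfl | rfl | rfl
      · exact absurd rfl r2
      · exact absurd rfl hpq
      · omega
    · exact absurd rfl r1
  · -- `y = c`, `x = g` is a third colour
    have hyc : y = c := by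
      by_contra hyc
      have := four _ _ _ _ c d x y h0.1 h0.2 h1.1 h1.2 hcd (Ne.symm s1) (Ne.symm hxd)
      rcases this with h | h | h
      · exact hyc h
      · exact s2 h
      · exact hxy h.symm
    subst hyc
    have n2 : imb m a b x y (fl a b x y ε₁) < 0 := by rw [imb_fl hxy]; omega
    have n2' : imb m a b y d (fl a b x y ε₁) < 0 := by
      rw [imb_fl_other (by rintro (h | h) <;> [exact hxy h.1.symm; exact hxd h.2.symm])]
      exact n1
    have bal2 : Bal m a b (fl a b x y ε₁) := bal1.fl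
    set ε₂ := fl a b x y ε₁ with hε₂
    obtain ⟨u, v, h2⟩ := hw ε₂
    have huv := wit_ne e hab hB h2
    obtain ⟨t1, t2, t3⟩ := step e hab hB bal1 h1 h2
    have p2 := wit_pos e hab hB h2
    have hu := four _ _ _ _ y d x u h0.1 h0.2 h1.1 h2.1 hcd hxy.symm (Ne.symm hxd)
    have hv := four _ _ _ _ y d x v h0.1 h0.2 h1.1 h2.2 hcd hxy.symm (Ne.symm hxd)
    have huy : u = d ∧ v = x := by
      rcases hu with rfl | rfl | rfl
      · rcases hv with rfl | rfl | rfl
        · exact absurd rfl huv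
        · omega
        · exact absurd ⟨rfl, rfl⟩ t3
      · rcases hv with rfl | rfl | rfl
        · exact absurd rfl t2
        · exact absurd rfl huv
        · exact ⟨rfl, rfl⟩
      · exact absurd rfl t1
    obtain ⟨rfl, rfl⟩ := huy
    -- `u` is the second colour, `v` the third one, `y` the first one
    have n3 : imb m a b y u (fl a b u v ε₂) < 0 := by
      rw [imb_fl_other (by rintro (h | h) <;> [exact hcd h.1; exact hxy h.1.symm])]
      exact n2'
    have n3' : imb m a b v y (fl a b u v ε₂) < 0 := by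
      rw [imb_fl_other (by rintro (h | h) <;> [exact huv h.1.symm; exact hcd h.2])]
      exact n2
    set ε₃ := fl a b u v ε₂ with hε₃
    obtain ⟨p, q, h3⟩ := hw ε₃
    have hpq := wit_ne e hab hB h3
    obtain ⟨r1, r2, r3⟩ := step e hab hB bal2 h2 h3
    have p3 := wit_pos e hab hB h3
    have hp := four _ _ _ _ y u v p h0.1 h0.2 h1.1 h3.1 hcd hxy.symm huv
    have hq := four _ _ _ _ y u v q h0.1 h0.2 h1.1 h3.2 hcd hxy.symm huv
    rcases hp with rfl | rfl | rfl
    · rcases hq with rfl | rfl | rfl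
      · exact absurd rfl hpq
      · omega
      · exact absurd rfl r2
    · exact absurd rfl r1
    · rcases hq with rfl | rfl | rfl
      · omega
      · exact absurd ⟨rfl, rfl⟩ r3
      · exact absurd rfl hpq

end main

/-! ### A balanced choice -/

theorem exists_bal {C : Type} [DecidableEq C] {n : ℕ} {m : Fin n → ℕ} {a b : Fin n → C}
    (hab : ∀ i, a i ≠ b i)
    (hS : ∀ S : Finset (Fin n), ∃ σ : Fin n → ℤ, (∀ i, σ i = 1 ∨ σ i = -1) ∧
      2 * |∑ i ∈ S, σ i * ((m i : ℤ) - 1)| ≤ 3 + vs m Sᶜ) : ∃ ε : Fin n → Bool, Bal m a b ε := by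
  classical
  choose sg hsg hsum using hS
  let cl : Sym2 C → Finset (Fin n) := fun E => univ.filter fun i => s(a i, b i) = E
  let pt : Fin n → C := fun i =>
    if sg (cl s(a i, b i)) i = 1 then (Quot.out s(a i, b i)).2 else (Quot.out s(a i, b i)).1
  have hpt : ∀ i, pt i = a i ∨ pt i = b i := by
    intro i
    have h1 : s((Quot.out s(a i, b i)).1, (Quot.out s(a i, b i)).2) = s(a i, b i) :=
      Quot.out_eq s(a i, b i)
    rw [Sym2.eq_iff] at h1
    simp only [pt]
    split_ifs
    · rcases h1 with h1 | h1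
      · exact Or.inr h1.2
      · exact Or.inl h1.2
    · rcases h1 with h1 | h1
      · exact Or.inl h1.1
      · exact Or.inr h1.1
  let ε : Fin n → Bool := fun i => decide (pt i = a i)
  have hch : ∀ i, ch a b ε i = pt i := by
    intro i
    unfold ch
    by_cases h : pt i = a i
    · rw [if_pos (by simp only [ε, decide_eq_true_eq]; exact h), h]
    · rw [if_neg (by simp only [ε, decide_eq_true_eq]; exact h)]
      rcases hpt i with h1 | h1
      · exact absurd h1 h
      · exact h1.symm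
  refine ⟨ε, ?_⟩
  intro c d hcd
  have hcls : cls a b c d = cl s(c, d) := by
    ext i
    simp only [cls, cl, mem_filter, mem_univ, true_and]
    rw [Sym2.eq_iff]
  have hout : s((Quot.out s(c, d)).1, (Quot.out s(c, d)).2) = s(c, d) := Quot.out_eq s(c, d)
  have hpti : ∀ i ∈ cl s(c, d), pt i =
      if sg (cl s(c, d)) i = 1 then (Quot.out s(c, d)).2 else (Quot.out s(c, d)).1 := by
    intro i hi
    have h1 : s(a i, b i) = s(c, d) := (mem_filter.mp hi).2
    simp only [pt]
    rw [h1]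
  have key : |imb m a b c d ε| = |∑ i ∈ cl s(c, d), sg (cl s(c, d)) i * ((m i : ℤ) - 1)| := by
    rw [Sym2.eq_iff] at hout
    rcases hout with ⟨h1, h2⟩ | ⟨h1, h2⟩
    · congr 1
      unfold imb
      rw [hcls]
      refine Finset.sum_congr rfl fun i hi => ?_
      rw [hch i, hpti i hi]
      rcases hsg (cl s(c, d)) i with h3 | h3
      · rw [if_pos h3, if_pos h2, h3, one_mul]
      · have hne : ¬ sg (cl s(c, d)) i = 1 := by rw [h3]; norm_num
        rw [if_neg hne, h1, if_neg hcd, h3]; ring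
    · rw [← abs_neg]
      congr 1
      unfold imb
      rw [hcls, ← Finset.sum_neg_distrib]
      refine Finset.sum_congr rfl fun i hi => ?_
      rw [hch i, hpti i hi]
      rcases hsg (cl s(c, d)) i with h3 | h3
      · rw [if_pos h3, h2, if_neg hcd, h3]; ring
      · have hne : ¬ sg (cl s(c, d)) i = 1 := by rw [h3]; norm_num
        rw [if_neg hne, if_pos h1, h3]; ring
  rw [key, hcls]
  exact hsum (cl s(c, d))

/-! ### The graphs -/

/-- The disjoint union of the stars `K_{1, m i}`: the vertices are the pairs `⟨i, none⟩` (the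
centre of the star `i`) and `⟨i, some j⟩` (its leaves), and each leaf is adjacent to the centre of
its star. -/
def starUnion {n : ℕ} (m : Fin n → ℕ) : SimpleGraph (Σ i : Fin n, Option (Fin (m i))) :=
  SimpleGraph.fromRel fun x y => x.1 = y.1 ∧ x.2.isNone = true ∧ y.2.isSome = true

/-- `G` is equitably `k`-choosable: for all lists of exactly `k` colours there is a proper colouring
from the lists in which each colour is used on at most `⌈|V(G)| / k⌉` vertices. -/
def EquitablyChoosable {V : Type} [Fintype V] (G : SimpleGraph V) (k : ℕ) : Prop :=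
  ∀ (C : Type) [DecidableEq C] (L : V → Finset C), (∀ v, (L v).card = k) →
    ∃ f : V → C, (∀ v, f v ∈ L v) ∧ (∀ u v, G.Adj u v → f u ≠ f v) ∧
      ∀ c, (univ.filter fun v => f v = c).card ≤ ⌈(Fintype.card V : ℚ) / (k : ℚ)⌉₊

lemma card_vertices {n : ℕ} (m : Fin n → ℕ) :
    Fintype.card (Σ i : Fin n, Option (Fin (m i))) = ∑ i, (m i + 1) := by
  simp

/-- The sufficient condition. -/
theorem choosable {n : ℕ} (m : Fin n → ℕ)
    (hS : ∀ S : Finset (Fin n), ∃ σ : Fin n → ℤ, (∀ i, σ i = 1 ∨ σ i = -1) ∧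
      2 * |∑ i ∈ S, σ i * ((m i : ℤ) - 1)| ≤ 3 + vs m Sᶜ) :
    EquitablyChoosable (starUnion m) 2 := by
  intro C _ L hL
  classical
  set B := ⌈(Fintype.card (Σ i : Fin n, Option (Fin (m i))) : ℚ) / ((2 : ℕ) : ℚ)⌉₊ with hB
  have hcard : Fintype.card (Σ i : Fin n, Option (Fin (m i))) ≤ 2 * B := by
    have h1 := Nat.le_ceil ((Fintype.card (Σ i : Fin n, Option (Fin (m i))) : ℚ) / ((2 : ℕ) : ℚ))
    rw [← hB, div_le_iff₀ (by norm_num)] at h1
    have h2 : (Fintype.card (Σ i : Fin n, Option (Fin (m i))) : ℚ) ≤ ((2 * B : ℕ) : ℚ) := by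
      push_cast at h1 ⊢
      linarith
    exact_mod_cast h2
  have hvs : vs m univ ≤ 2 * B := by
    have h1 : vs m univ = ((Fintype.card (Σ i : Fin n, Option (Fin (m i))) : ℕ) : ℤ) := by
      rw [card_vertices]
      unfold vs
      push_cast
      rfl
    rw [h1]
    exact_mod_cast hcard
  have h2 : ∀ v, ∃ x y, x ≠ y ∧ L v = {x, y} := fun v => card_eq_two.mp (hL v)
  choose p q hpq hLpq using h2
  let a : Fin n → C := fun i => p ⟨i, none⟩
  let b : Fin n → C := fun i => q ⟨i, none⟩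
  let e : (i : Fin n) → Fin (m i) → Sym2 C := fun i j => s(p ⟨i, some j⟩, q ⟨i, some j⟩)
  have hab : ∀ i, a i ≠ b i := fun i => hpq _
  obtain ⟨ε₀, hε₀⟩ := exists_bal hab hS
  obtain ⟨ε, hε⟩ := exists_good e hab hvs ε₀ hε₀
  -- the available colours
  let A : (Σ i : Fin n, Option (Fin (m i))) → Finset C := fun v =>
    match v with
    | ⟨i, none⟩ => {ch a b ε i}
    | ⟨i, some j⟩ => L ⟨i, some j⟩ \ {ch a b ε i}
  have hA0 : ∀ i, A ⟨i, none⟩ = {ch a b ε i} := fun i => rfl
  have hA1 : ∀ i j, A ⟨i, some j⟩ = L ⟨i, some j⟩ \ {ch a b ε i} := fun i j => rfl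
  have hAL : ∀ v, A v ⊆ L v := by
    rintro ⟨i, _ | j⟩
    · rw [hA0, hLpq, singleton_subset_iff, mem_insert, mem_singleton]
      rcases ch_cases a b ε i with h | h
      · exact Or.inl h.1
      · exact Or.inr h.1
    · rw [hA1]; exact sdiff_subset
  have hAne : ∀ v, (A v).Nonempty := by
    rintro ⟨i, _ | j⟩
    · rw [hA0]; exact singleton_nonempty _
    · rw [hA1, ← card_pos]
      have := le_card_sdiff {ch a b ε i} (L ⟨i, some j⟩)
      rw [hL, card_singleton] at this
      omega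
  have hforced : ∀ x, (univ.filter fun v => A v = {x}).card ≤ B := by
    intro x
    refine le_trans ?_ (hε x)
    rw [card_filter, Fintype.sum_sigma]
    unfold total
    refine Finset.sum_le_sum fun i _ => ?_
    rw [Fintype.sum_option]
    unfold load
    refine Nat.add_le_add ?_ (Finset.sum_le_sum fun j _ => ?_)
    · rw [hA0]
      split_ifs with h1 h2
      · exact le_rfl
      · exact absurd (singleton_injective h1).symm h2
      · omega
      · exact le_rfl
    · rw [hA1]
      by_cases h1 : L ⟨i, some j⟩ \ {ch a b ε i} = {x}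
      · rw [if_pos h1]
        have hx : x ∈ L ⟨i, some j⟩ \ {ch a b ε i} := by rw [h1]; exact mem_singleton_self x
        rw [mem_sdiff, mem_singleton] at hx
        have hother : ∀ y ∈ L ⟨i, some j⟩, y ≠ x → y = ch a b ε i := by
          intro y hy hyx
          by_contra hne
          have h3 : y ∈ L ⟨i, some j⟩ \ {ch a b ε i} := by
            rw [mem_sdiff, mem_singleton]; exact ⟨hy, hne⟩
          rw [h1, mem_singleton] at h3
          exact hyx h3
        have h4 : e i j = s(ch a b ε i, x) := by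
          show s(p ⟨i, some j⟩, q ⟨i, some j⟩) = s(ch a b ε i, x)
          rw [hLpq ⟨i, some j⟩] at hx hother
          rw [Sym2.eq_iff]
          have hx' := hx.1
          rw [mem_insert, mem_singleton] at hx'
          rcases hx' with hx' | hx'
          · right
            refine ⟨hx'.symm, ?_⟩
            exact hother _ (by simp) (by rw [hx']; exact (hpq _).symm)
          · left
            refine ⟨?_, hx'.symm⟩
            exact hother _ (by simp) (by rw [hx']; exact hpq _)
        unfold t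
        rw [if_pos ⟨h4, fun h => hx.2 h.symm⟩]
      · rw [if_neg h1]; exact Nat.zero_le _
  -- Hall's theorem
  obtain ⟨F, hFinj, hF⟩ := (Finset.all_card_le_biUnion_card_iff_exists_injective
    (fun v => A v ×ˢ (univ : Finset (Fin B)))).mp (by
      intro W
      have h1 : (W.biUnion fun v => A v ×ˢ (univ : Finset (Fin B)))
          = (W.biUnion A) ×ˢ (univ : Finset (Fin B)) := by
        ext ⟨c, i⟩
        simp only [mem_biUnion, mem_product, mem_univ, and_true]
      rw [h1, card_product, card_univ, Fintype.card_fin]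
      rcases W.eq_empty_or_nonempty with rfl | ⟨w, hw⟩
      · simp
      · by_cases hc : 2 ≤ (W.biUnion A).card
        · calc W.card ≤ Fintype.card (Σ i : Fin n, Option (Fin (m i))) := card_le_univ W
            _ ≤ 2 * B := hcard
            _ ≤ _ := Nat.mul_le_mul_right _ hc
        · have h2 : (W.biUnion A).Nonempty := by
            obtain ⟨c, hc⟩ := hAne w
            exact ⟨c, mem_biUnion.mpr ⟨w, hw, hc⟩⟩
          have h3 : (W.biUnion A).card = 1 := by
            have := card_pos.mpr h2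
            omega
          obtain ⟨x, hx⟩ := card_eq_one.mp h3
          rw [h3, one_mul]
          refine le_trans (card_le_card ?_) (hforced x)
          intro v hv
          rw [mem_filter]
          refine ⟨mem_univ _, ?_⟩
          refine (subset_singleton_iff.mp ?_).resolve_left (hAne v).ne_empty
          rw [← hx]
          exact subset_biUnion_of_mem A hv)
  refine ⟨fun v => (F v).1, fun v => hAL v (mem_product.mp (hF v)).1, ?_, ?_⟩
  · -- properness
    have key : ∀ u v : Σ i : Fin n, Option (Fin (m i)), u.1 = v.1 → u.2.isNone = true →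
        v.2.isSome = true → (F u).1 ≠ (F v).1 := by
      rintro ⟨i, _ | j⟩ ⟨i', _ | j'⟩ h1 h2 h3
      · simp at h3
      · simp only at h1
        subst h1
        have h4 := (mem_product.mp (hF ⟨i, none⟩)).1
        have h5 := (mem_product.mp (hF ⟨i, some j'⟩)).1
        rw [hA0, mem_singleton] at h4
        rw [hA1, mem_sdiff, mem_singleton] at h5
        rw [h4]
        exact fun h => h5.2 h.symm
      · simp at h2
      · simp at h2
    intro u v huv
    unfold starUnion at huv
    rw [SimpleGraph.fromRel_adj] at huv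
    rcases huv.2 with ⟨h1, h2, h3⟩ | ⟨h1, h2, h3⟩
    · exact key u v h1 h2 h3
    · exact (key v u h1 h2 h3).symm
  · intro c
    have h1 : ((univ.filter fun v => (F v).1 = c).image fun v => (F v).2).card ≤ B := by
      calc _ ≤ Fintype.card (Fin B) := card_le_univ _
        _ = B := Fintype.card_fin B
    rw [card_image_of_injOn] at h1
    · exact h1
    · intro u hu v hv huv
      simp only [coe_filter, mem_univ, true_and, Set.mem_setOf_eq] at hu hv
      exact hFinj (Prod.ext (hu.trans hv.symm) huv)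

/-! ### The necessary condition -/

lemma count_mod (m r : ℕ) (hr : r < 4) :
    m / 4 ≤ (univ.filter fun j : Fin m => (j : ℕ) % 4 = r).card := by
  have h : (univ : Finset (Fin (m / 4))).card ≤
      (univ.filter fun j : Fin m => (j : ℕ) % 4 = r).card := by
    refine card_le_card_of_injOn (fun k => ⟨4 * k + r, by have := k.2; omega⟩) ?_ ?_
    · intro k _
      rw [mem_coe, mem_filter]
      refine ⟨mem_univ _, ?_⟩
      show (4 * (k : ℕ) + r) % 4 = r
      omega
    · intro k _ k' _ h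
      simp only [Fin.mk.injEq] at h
      exact Fin.ext (by omega)
  simpa using h

/-- The lists of the leaves of the stars outside of `S`. -/
def leafList (r : ℕ) : Finset ℕ :=
  if r = 0 then {3, 1} else if r = 1 then {3, 2} else if r = 2 then {4, 1} else {4, 2}

theorem necessary {n : ℕ} (m : Fin n → ℕ) (h : EquitablyChoosable (starUnion m) 2)
    (P : Fin n → Bool) : ∃ σ : Fin n → ℤ, (∀ i, σ i = 1 ∨ σ i = -1) ∧
      |∑ i, (if P i = true then σ i * ((m i : ℤ) - 1) else 0)| +
        2 * ∑ i, (if P i = true then 0 else ((m i / 4 : ℕ) : ℤ)) ≤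
          ∑ i, (if P i = true then 0 else ((m i : ℤ) + 1)) + 1 := by
  classical
  let L : (Σ i : Fin n, Option (Fin (m i))) → Finset ℕ := fun v =>
    if P v.1 = true then {1, 2} else
      match v.2 with
      | none => {3, 4}
      | some j => leafList ((j : ℕ) % 4)
  obtain ⟨f, hf1, hf2, hf3⟩ := h ℕ L (by
    rintro ⟨i, _ | j⟩
    · simp only [L]; split_ifs <;> rfl
    · simp only [L]
      split_ifs
      · rfl
      · unfold leafList
        split_ifs <;> rfl)
  let σ : Fin n → ℤ := fun i => if f ⟨i, none⟩ = 1 then -1 else 1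
  have hadj : ∀ i j, f ⟨i, none⟩ ≠ f ⟨i, some j⟩ := by
    intro i j
    refine hf2 _ _ ?_
    unfold starUnion
    rw [SimpleGraph.fromRel_adj]
    refine ⟨?_, Or.inl ⟨rfl, rfl, rfl⟩⟩
    intro h
    have h1 := (Sigma.mk.inj_iff.mp h).2
    simp at h1
  -- the contribution of a star
  let k : ℕ → Fin n → ℕ := fun x i =>
    (if f ⟨i, none⟩ = x then 1 else 0) + ∑ j, (if f ⟨i, some j⟩ = x then 1 else 0)
  have hk : ∀ x, (univ.filter fun v => f v = x).card = ∑ i, k x i := by
    intro x
    rw [card_filter, Fintype.sum_sigma]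
    refine Finset.sum_congr rfl fun i _ => ?_
    rw [Fintype.sum_option]
  have hin : ∀ i, P i = true → 2 * (k 1 i : ℤ) = ((m i : ℤ) + 1) + σ i * ((m i : ℤ) - 1) ∧
      2 * (k 2 i : ℤ) = ((m i : ℤ) + 1) - σ i * ((m i : ℤ) - 1) := by
    intro i hi
    have h0 : f ⟨i, none⟩ ∈ ({1, 2} : Finset ℕ) := by
      have := hf1 ⟨i, none⟩
      simp only [L, if_pos hi] at this
      exact this
    have h1 : ∀ j, f ⟨i, some j⟩ ∈ ({1, 2} : Finset ℕ) := by
      intro j
      have := hf1 ⟨i, some j⟩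
      simp only [L, if_pos hi] at this
      exact this
    rw [mem_insert, mem_singleton] at h0
    rcases h0 with h0 | h0
    · have h2 : ∀ j, f ⟨i, some j⟩ = 2 := by
        intro j
        have h3 := h1 j
        rw [mem_insert, mem_singleton] at h3
        have h4 := hadj i j
        omega
      simp only [k, σ, h0, h2, if_true, sum_const, card_univ, Fintype.card_fin, smul_eq_mul]
      norm_num
      constructor <;> ring
    · have h2 : ∀ j, f ⟨i, some j⟩ = 1 := by
        intro j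
        have h3 := h1 j
        rw [mem_insert, mem_singleton] at h3
        have h4 := hadj i j
        omega
      simp only [k, σ, h0, h2, if_true, sum_const, card_univ, Fintype.card_fin, smul_eq_mul]
      norm_num
      try ring_nf
  have hout : ∀ i, P i ≠ true → m i / 4 ≤ k 1 i ∧ m i / 4 ≤ k 2 i := by
    intro i hi
    have h0 : f ⟨i, none⟩ ∈ ({3, 4} : Finset ℕ) := by
      have := hf1 ⟨i, none⟩
      simp only [L, if_neg hi] at this
      exact this
    have h1 : ∀ j : Fin (m i), f ⟨i, some j⟩ ∈ leafList ((j : ℕ) % 4) := by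
      intro j
      have := hf1 ⟨i, some j⟩
      simp only [L, if_neg hi] at this
      exact this
    have hforce : ∀ r < 4, ∀ x, leafList r = {f ⟨i, none⟩, x} → m i / 4 ≤ k x i := by
      intro r hr x hrx
      refine le_trans (count_mod (m i) r hr) ?_
      refine le_trans ?_ (Nat.le_add_left _ _)
      rw [card_filter]
      refine Finset.sum_le_sum fun j _ => ?_
      split_ifs with h2 h3
      · exact le_rfl
      · exfalso
        have h4 := h1 j
        rw [h2, hrx, mem_insert, mem_singleton] at h4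
        rcases h4 with h4 | h4
        · exact hadj i j h4.symm
        · exact h3 h4
      · omega
      · exact le_rfl
    rw [mem_insert, mem_singleton] at h0
    rcases h0 with h0 | h0
    · exact ⟨hforce 0 (by norm_num) 1 (by rw [h0]; rfl), hforce 1 (by norm_num) 2 (by rw [h0]; rfl)⟩
    · exact ⟨hforce 2 (by norm_num) 1 (by rw [h0]; rfl), hforce 3 (by norm_num) 2 (by rw [h0]; rfl)⟩
  -- the bound for the classes
  have hbound : ∀ x, 2 * (∑ i, (k x i : ℤ)) ≤ (∑ i, ((m i : ℤ) + 1)) + 1 := by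
    intro x
    have h1 := hf3 x
    rw [hk x] at h1
    have h2 := Nat.ceil_lt_add_one (a := (Fintype.card (Σ i : Fin n, Option (Fin (m i))) : ℚ)
      / ((2 : ℕ) : ℚ)) (by positivity)
    have h3 : ((∑ i, k x i : ℕ) : ℚ) < (Fintype.card (Σ i : Fin n, Option (Fin (m i))) : ℚ)
        / ((2 : ℕ) : ℚ) + 1 := lt_of_le_of_lt (by exact_mod_cast h1) h2
    have h4 : ((2 * ∑ i, k x i : ℕ) : ℚ) <
        ((Fintype.card (Σ i : Fin n, Option (Fin (m i))) + 2 : ℕ) : ℚ) := by
      push_cast at h3 ⊢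
      linarith
    have h5 : 2 * ∑ i, k x i < Fintype.card (Σ i : Fin n, Option (Fin (m i))) + 2 := by
      exact_mod_cast h4
    rw [card_vertices] at h5
    have h6 : 2 * ∑ i, k x i ≤ ∑ i, (m i + 1) + 1 := by omega
    exact_mod_cast h6
  refine ⟨σ, fun i => by simp only [σ]; split_ifs <;> simp, ?_⟩
  have e1 : ∑ i, (((m i : ℤ) + 1)) = ∑ i, (if P i = true then ((m i : ℤ) + 1) else 0) +
      ∑ i, (if P i = true then 0 else ((m i : ℤ) + 1)) := by
    rw [← Finset.sum_add_distrib]
    refine Finset.sum_congr rfl fun i _ => ?_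
    split_ifs <;> ring
  have l1 : ∑ i, (if P i = true then ((m i : ℤ) + 1) else 0) +
      ∑ i, (if P i = true then σ i * ((m i : ℤ) - 1) else 0) +
      2 * ∑ i, (if P i = true then 0 else ((m i / 4 : ℕ) : ℤ)) ≤ 2 * ∑ i, (k 1 i : ℤ) := by
    rw [Finset.mul_sum, Finset.mul_sum, ← Finset.sum_add_distrib, ← Finset.sum_add_distrib]
    refine Finset.sum_le_sum fun i _ => ?_
    by_cases hi : P i = true
    · rw [if_pos hi, if_pos hi, if_pos hi, (hin i hi).1]; omega
    · rw [if_neg hi, if_neg hi, if_neg hi]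
      have := (hout i hi).1
      omega
  have l2 : ∑ i, (if P i = true then ((m i : ℤ) + 1) else 0) -
      ∑ i, (if P i = true then σ i * ((m i : ℤ) - 1) else 0) +
      2 * ∑ i, (if P i = true then 0 else ((m i / 4 : ℕ) : ℤ)) ≤ 2 * ∑ i, (k 2 i : ℤ) := by
    rw [Finset.mul_sum, Finset.mul_sum, ← Finset.sum_sub_distrib, ← Finset.sum_add_distrib]
    refine Finset.sum_le_sum fun i _ => ?_
    by_cases hi : P i = true
    · rw [if_pos hi, if_pos hi, if_pos hi, (hin i hi).2]; omega
    · rw [if_neg hi, if_neg hi, if_neg hi]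
      have := (hout i hi).2
      omega
  have b1 := hbound 1
  have b2 := hbound 2
  rw [e1] at b1 b2
  rcases abs_cases (∑ i, (if P i = true then σ i * ((m i : ℤ) - 1) else 0)) with ⟨h7, _⟩ | ⟨h7, _⟩
  · rw [h7]; linarith
  · rw [h7]; linarith

/-! ### Signs -/

lemma exists_signs {ι : Type} [DecidableEq ι] (A : Finset ι) (t : ℤ) (h1 : |t| ≤ A.card)
    (h2 : (2 : ℤ) ∣ (A.card : ℤ) - t) :
    ∃ σ : ι → ℤ, (∀ i, σ i = 1 ∨ σ i = -1) ∧ ∑ i ∈ A, σ i = t := by
  obtain ⟨k, hk⟩ := h2
  have h3 := abs_le.mp h1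
  have hk0 : 0 ≤ k := by omega
  obtain ⟨k', rfl⟩ := Int.eq_ofNat_of_zero_le hk0
  obtain ⟨B, hB, hBc⟩ := exists_subset_card_eq (s := A) (n := k') (by omega)
  refine ⟨fun i => if i ∈ B then -1 else 1, fun i => by dsimp only; split_ifs <;> simp, ?_⟩
  have h4 : ∀ i, (if i ∈ B then (-1 : ℤ) else 1) = 1 - 2 * (if i ∈ B then 1 else 0) := by
    intro i; split_ifs <;> norm_num
  simp only [h4]
  rw [Finset.sum_sub_distrib, ← Finset.mul_sum, ← Finset.sum_filter, Finset.filter_mem_eq_inter,
    Finset.inter_eq_right.mpr hB, sum_const, sum_const, hBc]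
  simp
  omega

/-! ### The infinite families for `n ≥ 5` -/

/-- `n - 2` stars with `2 M + 1` leaves and two stars with `3 M + 1` leaves. -/
def fam (n M : ℕ) : Fin n → ℕ := fun i => if (i : ℕ) < n - 2 then 2 * M + 1 else 3 * M + 1

lemma arith (n M α α' β β' : ℕ) (hn : 5 ≤ n) (hα : α + α' = n - 2) (hβ : β + β' = 2) :
    ∃ t t' : ℤ, |t| ≤ α ∧ (2 : ℤ) ∣ (α : ℤ) - t ∧ |t'| ≤ β ∧
      (2 : ℤ) ∣ (β : ℤ) - t' ∧ 2 * |t * (2 * (M : ℤ)) + t' * (3 * (M : ℤ))| ≤
        3 + ((α' : ℤ) * (2 * M + 2) + (β' : ℤ) * (3 * M + 2)) := by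
  have hM : (0 : ℤ) ≤ M := Int.natCast_nonneg M
  have hp : (0 : ℤ) ≤ (α' : ℤ) * (2 * M + 2) := by positivity
  have hβ2 : β = 0 ∨ β = 1 ∨ β = 2 := by omega
  rcases hβ2 with rfl | rfl | rfl
  · have hb' : β' = 2 := by omega
    subst hb'
    rcases Nat.even_or_odd' α with ⟨c, rfl | rfl⟩
    · refine ⟨0, 0, by simp, ⟨c, by push_cast; ring⟩, by simp, ⟨0, by simp⟩, ?_⟩
      simp only [zero_mul, add_zero, abs_zero, mul_zero]
      push_cast
      linarith
    · refine ⟨1, 0, by rw [abs_one]; push_cast; linarith, ⟨c, by push_cast; ring⟩, by simp,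
        ⟨0, by simp⟩, ?_⟩
      rw [abs_of_nonneg (by linarith)]
      push_cast
      linarith
  · have hb' : β' = 1 := by omega
    subst hb'
    rcases Nat.even_or_odd' α with ⟨c, rfl | rfl⟩
    · rcases Nat.eq_zero_or_pos c with rfl | hc
      · refine ⟨0, 1, by simp, ⟨0, by simp⟩, by simp, ⟨0, by simp⟩, ?_⟩
        rw [abs_of_nonneg (by linarith)]
        have h3 : (3 : ℤ) ≤ α' := by omega
        have h4 : (3 : ℤ) * (2 * M + 2) ≤ (α' : ℤ) * (2 * M + 2) :=
          mul_le_mul_of_nonneg_right h3 (by linarith)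
        push_cast
        linarith
      · refine ⟨-2, 1, by rw [abs_neg, abs_two]; push_cast; omega, ⟨c + 1, by push_cast; ring⟩,
          by simp, ⟨0, by simp⟩, ?_⟩
        rw [abs_of_nonpos (by linarith)]
        push_cast
        linarith
    · refine ⟨-1, 1, by rw [abs_neg, abs_one]; push_cast; linarith, ⟨c + 1, by push_cast; ring⟩,
        by simp, ⟨0, by simp⟩, ?_⟩
      rw [abs_of_nonneg (by linarith)]
      push_cast
      linarith
  · have hb' : β' = 0 := by omega
    subst hb'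
    rcases Nat.even_or_odd' α with ⟨c, rfl | rfl⟩
    · refine ⟨0, 0, by simp, ⟨c, by push_cast; ring⟩, by simp, ⟨1, by simp⟩, ?_⟩
      simp only [zero_mul, add_zero, abs_zero, mul_zero]
      push_cast
      linarith
    · rcases Nat.eq_zero_or_pos c with rfl | hc
      · refine ⟨1, 0, by simp, ⟨0, by simp⟩, by simp, ⟨1, by simp⟩, ?_⟩
        rw [abs_of_nonneg (by linarith)]
        have h3 : (2 : ℤ) ≤ α' := by omega
        have h4 : (2 : ℤ) * (2 * M + 2) ≤ (α' : ℤ) * (2 * M + 2) :=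
          mul_le_mul_of_nonneg_right h3 (by linarith)
        push_cast
        linarith
      · refine ⟨-3, 2, ?_, ⟨c + 2, by push_cast; ring⟩, by simp, ⟨0, by simp⟩, ?_⟩
        · rw [abs_neg, abs_of_nonneg (by norm_num)]
          push_cast
          omega
        · have : (-3 : ℤ) * (2 * M) + 2 * (3 * M) = 0 := by ring
          rw [this, abs_zero]
          push_cast
          linarith

lemma fam_bal {n : ℕ} (hn : 5 ≤ n) (M : ℕ) (S : Finset (Fin n)) :
    ∃ σ : Fin n → ℤ, (∀ i, σ i = 1 ∨ σ i = -1) ∧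
      2 * |∑ i ∈ S, σ i * ((fam n M i : ℤ) - 1)| ≤ 3 + vs (fam n M) Sᶜ := by
  classical
  set A := S.filter fun i : Fin n => (i : ℕ) < n - 2 with hA
  set B := S.filter fun i : Fin n => ¬ (i : ℕ) < n - 2 with hB
  set A' := Sᶜ.filter fun i : Fin n => (i : ℕ) < n - 2 with hA'
  set B' := Sᶜ.filter fun i : Fin n => ¬ (i : ℕ) < n - 2 with hB'
  have cA : A.card + A'.card = n - 2 := by
    rw [hA, hA', ← card_union_of_disjoint, ← filter_union, Finset.union_compl]
    · rw [Fin.card_filter_val_lt]; omega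
    · exact Finset.disjoint_filter_filter disjoint_compl_right
  have cB : B.card + B'.card = 2 := by
    rw [hB, hB', ← card_union_of_disjoint, ← filter_union, Finset.union_compl]
    · have := Finset.card_filter_add_card_filter_not (s := (univ : Finset (Fin n)))
        (fun i : Fin n => (i : ℕ) < n - 2)
      rw [Fin.card_filter_val_lt, card_univ, Fintype.card_fin] at this
      omega
    · exact Finset.disjoint_filter_filter disjoint_compl_right
  -- the choice of the two sums of signs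
  have hst : ∃ t t' : ℤ, |t| ≤ A.card ∧ (2 : ℤ) ∣ (A.card : ℤ) - t ∧ |t'| ≤ B.card ∧
      (2 : ℤ) ∣ (B.card : ℤ) - t' ∧ 2 * |t * (2 * (M : ℤ)) + t' * (3 * (M : ℤ))| ≤
        3 + ((A'.card : ℤ) * (2 * M + 2) + (B'.card : ℤ) * (3 * M + 2)) :=
    arith n M _ _ _ _ hn cA cB
  obtain ⟨t, t', h1, h2, h3, h4, h5⟩ := hst
  obtain ⟨σ, hσ, hσt⟩ := exists_signs A t h1 h2
  obtain ⟨σ', hσ', hσt'⟩ := exists_signs B t' h3 h4
  refine ⟨fun i => if (i : ℕ) < n - 2 then σ i else σ' i, fun i => by
    dsimp only; split_ifs; exacts [hσ i, hσ' i], ?_⟩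
  have e1 : ∑ i ∈ S, (if (i : ℕ) < n - 2 then σ i else σ' i) * ((fam n M i : ℤ) - 1) =
      t * (2 * (M : ℤ)) + t' * (3 * (M : ℤ)) := by
    rw [← Finset.sum_filter_add_sum_filter_not S (fun i : Fin n => (i : ℕ) < n - 2), ← hσt,
      ← hσt', Finset.sum_mul, Finset.sum_mul]
    congr 1
    · refine Finset.sum_congr rfl fun i hi => ?_
      have hi' := (mem_filter.mp hi).2
      simp only [fam, if_pos hi']
      push_cast
      ring
    · refine Finset.sum_congr rfl fun i hi => ?_
      have hi' := (mem_filter.mp hi).2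
      simp only [fam, if_neg hi']
      push_cast
      ring
  have e2 : vs (fam n M) Sᶜ = (A'.card : ℤ) * (2 * M + 2) + (B'.card : ℤ) * (3 * M + 2) := by
    unfold vs
    rw [← Finset.sum_filter_add_sum_filter_not Sᶜ (fun i : Fin n => (i : ℕ) < n - 2)]
    congr 1
    · rw [← nsmul_eq_mul, ← sum_const]
      refine Finset.sum_congr rfl fun i hi => ?_
      have hi' := (mem_filter.mp hi).2
      simp only [fam, if_pos hi']
      push_cast
      ring
    · rw [← nsmul_eq_mul, ← sum_const]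
      refine Finset.sum_congr rfl fun i hi => ?_
      have hi' := (mem_filter.mp hi).2
      simp only [fam, if_neg hi']
      push_cast
      ring
  rw [e1, e2]
  exact h5

/-- arithmetic for four stars -/
lemma arith4 (a b c d qa qb qc : ℤ) (h1 : 1 ≤ a) (hab : a ≤ b) (hbc : b ≤ c) (hcd : c ≤ d)
    (ha : a ≤ 4 * qa + 3) (hb : b ≤ 4 * qb + 3) (hc : c ≤ 4 * qc + 3)
    (s0 s1 s2 s3 : ℤ) (hs0 : s0 = 1 ∨ s0 = -1) (hs1 : s1 = 1 ∨ s1 = -1) (hs2 : s2 = 1 ∨ s2 = -1)
    (hs3 : s3 = 1 ∨ s3 = -1)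
    (hall : |s0 * (a - 1) + s1 * (b - 1) + s2 * (c - 1) + s3 * (d - 1)| ≤ 1)
    (t1 t2 t3 : ℤ) (ht1 : t1 = 1 ∨ t1 = -1) (ht2 : t2 = 1 ∨ t2 = -1) (ht3 : t3 = 1 ∨ t3 = -1)
    (h123 : |t1 * (b - 1) + t2 * (c - 1) + t3 * (d - 1)| + 2 * qa ≤ a + 2)
    (u2 u3 : ℤ) (hu2 : u2 = 1 ∨ u2 = -1) (hu3 : u3 = 1 ∨ u3 = -1)
    (h23 : |u2 * (c - 1) + u3 * (d - 1)| + 2 * (qa + qb) ≤ a + b + 3)
    (v3 : ℤ) (hv3 : v3 = 1 ∨ v3 = -1)
    (h3 : |v3 * (d - 1)| + 2 * (qa + qb + qc) ≤ a + b + c + 4) : d ≤ 1000 := by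
  have k3 : d - 1 + 2 * (qa + qb + qc) ≤ a + b + c + 4 := by
    rcases hv3 with rfl | rfl
    · have := le_abs_self (1 * (d - 1)); linarith
    · have := neg_abs_le (-1 * (d - 1)); linarith
  have k23 : d - c + 2 * (qa + qb) ≤ a + b + 3 := by
    have e1 := le_abs_self (u2 * (c - 1) + u3 * (d - 1))
    have e2 := neg_abs_le (u2 * (c - 1) + u3 * (d - 1))
    rcases hu2 with rfl | rfl <;> rcases hu3 with rfl | rfl <;> linarith
  have k123 : (d - c - b + 1 + 2 * qa ≤ a + 2 ∧ c + b - d - 1 + 2 * qa ≤ a + 2) ∨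
      d - c + b - 1 + 2 * qa ≤ a + 2 := by
    have e1 := le_abs_self (t1 * (b - 1) + t2 * (c - 1) + t3 * (d - 1))
    have e2 := neg_abs_le (t1 * (b - 1) + t2 * (c - 1) + t3 * (d - 1))
    rcases ht1 with rfl | rfl <;> rcases ht2 with rfl | rfl <;> rcases ht3 with rfl | rfl
    all_goals first
      | (left; constructor <;> linarith)
      | (right; linarith)
  have kall : (d - c - b - a + 2 ≤ 1 ∧ -1 ≤ d - c - b - a + 2) ∨ (d - c - b + a ≤ 1 ∧ -1 ≤ d - c - b + a) ∨
      (d - c + b - a ≤ 1) := by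
    have e1 := le_abs_self (s0 * (a - 1) + s1 * (b - 1) + s2 * (c - 1) + s3 * (d - 1))
    have e2 := neg_abs_le (s0 * (a - 1) + s1 * (b - 1) + s2 * (c - 1) + s3 * (d - 1))
    rcases hs0 with rfl | rfl <;> rcases hs1 with rfl | rfl <;> rcases hs2 with rfl | rfl <;>
      rcases hs3 with rfl | rfl
    all_goals first
      | (left; constructor <;> linarith)
      | (right; left; constructor <;> linarith)
      | (right; right; linarith)
  rcases kall with k | k | k <;> rcases k123 with l | l <;> linarith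

lemma arith3 (a b c qa qb : ℤ) (h1 : 1 ≤ a) (hab : a ≤ b) (hbc : b ≤ c)
    (ha : a ≤ 4 * qa + 3) (hb : b ≤ 4 * qb + 3)
    (s0 s1 s2 : ℤ) (hs0 : s0 = 1 ∨ s0 = -1) (hs1 : s1 = 1 ∨ s1 = -1) (hs2 : s2 = 1 ∨ s2 = -1)
    (hall : |s0 * (a - 1) + s1 * (b - 1) + s2 * (c - 1)| ≤ 1)
    (v2 : ℤ) (hv2 : v2 = 1 ∨ v2 = -1)
    (h2 : |v2 * (c - 1)| + 2 * (qa + qb) ≤ a + b + 3) : c ≤ 1000 := by
  have k2 : c - 1 + 2 * (qa + qb) ≤ a + b + 3 := by
    rcases hv2 with rfl | rfl
    · have := le_abs_self (1 * (c - 1)); linarith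
    · have := neg_abs_le (-1 * (c - 1)); linarith
  have kall : (c - b - a + 1 ≤ 1 ∧ -1 ≤ c - b - a + 1) ∨ (c - b + a - 1 ≤ 1) := by
    have e1 := le_abs_self (s0 * (a - 1) + s1 * (b - 1) + s2 * (c - 1))
    have e2 := neg_abs_le (s0 * (a - 1) + s1 * (b - 1) + s2 * (c - 1))
    rcases hs0 with rfl | rfl <;> rcases hs1 with rfl | rfl <;> rcases hs2 with rfl | rfl
    all_goals first
      | (left; constructor <;> linarith)
      | (right; linarith)
  rcases kall with k | k <;> linarith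

lemma arith2 (a b qa : ℤ) (h1 : 1 ≤ a) (hab : a ≤ b) (ha : a ≤ 4 * qa + 3)
    (v1 : ℤ) (hv1 : v1 = 1 ∨ v1 = -1)
    (h2 : |v1 * (b - 1)| + 2 * qa ≤ a + 2) : b ≤ 1000 := by
  have k2 : b - 1 + 2 * qa ≤ a + 2 := by
    rcases hv1 with rfl | rfl
    · have := le_abs_self (1 * (b - 1)); linarith
    · have := neg_abs_le (-1 * (b - 1)); linarith
  linarith

/-! ### The final theorem -/

lemma infinite_of_five {n : ℕ} (hn : 5 ≤ n) :
    {m : Fin n → ℕ | Monotone m ∧ (∀ i, 1 ≤ m i) ∧ EquitablyChoosable (starUnion m) 2}.Infinite := by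
  refine Set.infinite_of_injective_forall_mem (f := fam n) ?_ ?_
  · intro M M' h
    have h1 := congrFun h ⟨0, by omega⟩
    simp only [fam] at h1
    rw [if_pos (by omega), if_pos (by omega)] at h1
    omega
  · intro M
    refine ⟨?_, ?_, choosable _ fun S => fam_bal hn M S⟩
    · intro i j hij
      have hij' : (i : ℕ) ≤ j := hij
      simp only [fam]
      split_ifs <;> omega
    · intro i
      simp only [fam]
      split_ifs <;> omega

lemma finite_of_bdd {n : ℕ} (K : ℕ) (p : (Fin n → ℕ) → Prop) (h : ∀ m, p m → ∀ i, m i ≤ K) :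
    {m : Fin n → ℕ | p m}.Finite :=
  (Set.finite_Iic (fun _ : Fin n => K)).subset fun m hm i => h m hm i

lemma finite_two :
    {m : Fin 2 → ℕ | Monotone m ∧ (∀ i, 1 ≤ m i) ∧ EquitablyChoosable (starUnion m) 2}.Finite := by
  refine finite_of_bdd 1000 _ ?_
  rintro m ⟨hm, h1, h⟩
  have m01 : m 0 ≤ m 1 := hm (by decide)
  have p0 := h1 0
  obtain ⟨v, hv, h2⟩ := necessary m h (fun i => decide (i = 1))
  have h2' : |v 1 * ((m 1 : ℤ) - 1)| + 2 * ((m 0 / 4 : ℕ) : ℤ) ≤ ((m 0 : ℤ) + 1) + 1 := by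
    simpa [Fin.sum_univ_two] using h2
  have key := arith2 (m 0) (m 1) ((m 0 / 4 : ℕ) : ℤ) (by omega) (by omega) (by omega) (v 1) (hv 1)
    (by linarith)
  have all : ∀ i : Fin 2, m i ≤ m 1 := fun i => hm (by fin_cases i <;> decide)
  intro i
  have := all i
  omega

lemma finite_three :
    {m : Fin 3 → ℕ | Monotone m ∧ (∀ i, 1 ≤ m i) ∧ EquitablyChoosable (starUnion m) 2}.Finite := by
  refine finite_of_bdd 1000 _ ?_
  rintro m ⟨hm, h1, h⟩
  have m01 : m 0 ≤ m 1 := hm (by decide)
  have m12 : m 1 ≤ m 2 := hm (by decide)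
  have p0 := h1 0
  obtain ⟨v, hv, h2⟩ := necessary m h (fun i => decide (i = 2))
  have h2' : |v 2 * ((m 2 : ℤ) - 1)| + 2 * (((m 0 / 4 : ℕ) : ℤ) + ((m 1 / 4 : ℕ) : ℤ)) ≤
      ((m 0 : ℤ) + 1) + ((m 1 : ℤ) + 1) + 1 := by
    simpa [Fin.sum_univ_three] using h2
  obtain ⟨s, hs, h3⟩ := necessary m h (fun _ => true)
  have h3' : |s 0 * ((m 0 : ℤ) - 1) + s 1 * ((m 1 : ℤ) - 1) + s 2 * ((m 2 : ℤ) - 1)| ≤ 1 := by
    simpa [Fin.sum_univ_three] using h3
  have key := arith3 (m 0) (m 1) (m 2) ((m 0 / 4 : ℕ) : ℤ) ((m 1 / 4 : ℕ) : ℤ)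
    (by omega) (by omega) (by omega) (by omega) (by omega) (s 0) (s 1) (s 2) (hs 0) (hs 1) (hs 2)
    h3' (v 2) (hv 2) (by linarith)
  have all : ∀ i : Fin 3, m i ≤ m 2 := fun i => hm (by fin_cases i <;> decide)
  intro i
  have := all i
  omega

lemma finite_four :
    {m : Fin 4 → ℕ | Monotone m ∧ (∀ i, 1 ≤ m i) ∧ EquitablyChoosable (starUnion m) 2}.Finite := by
  refine finite_of_bdd 1000 _ ?_
  rintro m ⟨hm, h1, h⟩
  have m01 : m 0 ≤ m 1 := hm (by decide)
  have m12 : m 1 ≤ m 2 := hm (by decide)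
  have m23 : m 2 ≤ m 3 := hm (by decide)
  have p0 := h1 0
  obtain ⟨v, hv, h2⟩ := necessary m h (fun i => decide (i = 3))
  have h2' : |v 3 * ((m 3 : ℤ) - 1)| +
      2 * (((m 0 / 4 : ℕ) : ℤ) + ((m 1 / 4 : ℕ) : ℤ) + ((m 2 / 4 : ℕ) : ℤ)) ≤
      ((m 0 : ℤ) + 1) + ((m 1 : ℤ) + 1) + ((m 2 : ℤ) + 1) + 1 := by
    simpa [Fin.sum_univ_four] using h2
  obtain ⟨s, hs, h3⟩ := necessary m h (fun _ => true)
  have h3' : |s 0 * ((m 0 : ℤ) - 1) + s 1 * ((m 1 : ℤ) - 1) + s 2 * ((m 2 : ℤ) - 1) +
      s 3 * ((m 3 : ℤ) - 1)| ≤ 1 := by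
    simpa [Fin.sum_univ_four] using h3
  obtain ⟨t, ht, h4⟩ := necessary m h (fun i => decide (i = 1 ∨ i = 2 ∨ i = 3))
  have h4' : |t 1 * ((m 1 : ℤ) - 1) + t 2 * ((m 2 : ℤ) - 1) + t 3 * ((m 3 : ℤ) - 1)| +
      2 * ((m 0 / 4 : ℕ) : ℤ) ≤ ((m 0 : ℤ) + 1) + 1 := by
    simpa [Fin.sum_univ_four] using h4
  obtain ⟨u, hu, h5⟩ := necessary m h (fun i => decide (i = 2 ∨ i = 3))
  have h5' : |u 2 * ((m 2 : ℤ) - 1) + u 3 * ((m 3 : ℤ) - 1)| +
      2 * (((m 0 / 4 : ℕ) : ℤ) + ((m 1 / 4 : ℕ) : ℤ)) ≤ ((m 0 : ℤ) + 1) + ((m 1 : ℤ) + 1) + 1 := by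
    simpa [Fin.sum_univ_four] using h5
  have key := arith4 (m 0) (m 1) (m 2) (m 3) ((m 0 / 4 : ℕ) : ℤ) ((m 1 / 4 : ℕ) : ℤ)
    ((m 2 / 4 : ℕ) : ℤ) (by omega) (by omega) (by omega) (by omega) (by omega) (by omega)
    (by omega) (s 0) (s 1) (s 2) (s 3) (hs 0) (hs 1) (hs 2) (hs 3) h3' (t 1) (t 2) (t 3) (ht 1)
    (ht 2) (ht 3) (by linarith) (u 2) (u 3) (hu 2) (hu 3) (by linarith) (v 3) (hv 3) (by linarith)
  have all : ∀ i : Fin 4, m i ≤ m 3 := fun i => hm (by fin_cases i <;> decide)
  intro i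
  have := all i
  omega

/-- **Main theorem.**  For `n ≥ 2` there are only finitely many equitably 2-choosable disjoint
unions of `n` stars `K_{1, m 0}, …, K_{1, m (n - 1)}` with `1 ≤ m 0 ≤ ⋯ ≤ m (n - 1)` if and only if
`n ≤ 4`. -/
theorem result (n : ℕ) (hn : 2 ≤ n) :
    {m : Fin n → ℕ | Monotone m ∧ (∀ i, 1 ≤ m i) ∧
      EquitablyChoosable (starUnion m) 2}.Finite ↔ n ≤ 4 := by
  constructor
  · intro h
    by_contra h4
    exact infinite_of_five (by omega) h
  · intro h4
    have : n = 2 ∨ n = 3 ∨ n = 4 := by omega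
    rcases this with rfl | rfl | rfl
    · exact finite_two
    · exact finite_three
    · exact finite_four

end Pool.Agent.Results.MP_0c0609_co.FiniteIffAtMostFour
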